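import Pool.Agent.N944.FE.Stm

/-!
Project FE (helper944): statements of the parts.
-/

set_option autoImplicit false

namespace Pool.Agent.N944.FE

open Filter Topology

/-! ## analysis and polygons -/

/-- generalised Fekete lemma (logarithmic errors) -/
def S_FEK : Prop := ∀ (r : ℕ → ℝ) (a0 : ℕ) (C : ℝ), 2 ≤ a0 → 0 ≤ C →
  (∀ a b : ℕ, a0 ≤ a → a0 ≤ b → r a + r b ≤ r (a + b) + C * Real.log ((a : ℝ) + b)) →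
  (∀ a : ℕ, a0 ≤ a → r a ≤ r (a + 1) + C * Real.log a) →
  (∀ a : ℕ, a0 ≤ a → 0 ≤ r a ∧ r a ≤ C * a) →
  ∃ f D : ℝ, 0 ≤ f ∧ 0 ≤ D ∧ Tendsto (fun a : ℕ => r a / a) atTop (𝓝 f) ∧
    ∀ a : ℕ, a0 ≤ a → r a ≤ f * a + D * √(a : ℝ)

def S_NORM : Prop := ∀ (d : ℕ) (γ : ℝ), 0 < γ →
  ∃ C : ℝ, 0 < C ∧ ∀ N : ℕ, 4 ≤ N → R d γ N ≤ C * N * Sn d γ N

def S_JB : Prop := ∀ (d : ℕ) (γ : ℝ), 0 < γ →
  (∀ a b : ℕ, 4 ≤ a → 4 ≤ b → Sn d γ a * Sn d γ b ≤ R d γ (a + b)) ∧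
  (∀ a : ℕ, 4 ≤ a → Sn d γ a ≤ R d γ (a + 2))

def S_RB : Prop := ∀ (d : ℕ) (γ : ℝ), 0 < γ →
  (∀ N : ℕ, ¬ Even N → R d γ N = 0) ∧ 1 ≤ R d γ 4 ∧ (∀ N : ℕ, R d γ N = 0 ∨ 1 ≤ R d γ N) ∧
  ∃ C : ℝ, 0 ≤ C ∧ ∀ N : ℕ, R d γ N ≤ Real.exp (C * N)

def S_LOW : Prop := ∀ (d : ℕ) (γ : ℝ), 0 < γ →
  (∀ N : ℕ, 4 ≤ N → R d γ N ≤ Z d γ (N - 1)) ∧ (∀ n : ℕ, 1 ≤ Z d γ n) ∧
  ∃ C : ℝ, 0 < C ∧ ∀ n : ℕ, Z d γ (n + 1) ≤ C * Z d γ n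

def S_FREE : Prop := ∀ (d : ℕ) (γ : ℝ), 0 < γ → ∃ f D : ℝ, 0 ≤ f ∧ 0 ≤ D ∧
  Tendsto (fun m : ℕ => Real.log (R d γ (2 * m)) / (2 * m : ℝ)) atTop (𝓝 f) ∧
  ∀ N : ℕ, 4 ≤ N → R d γ N ≤ Real.exp (f * N + D * √(N : ℝ))

def S_UP : Prop := ∀ (d : ℕ) (γ f D : ℝ), 0 < γ → 0 ≤ f → 0 ≤ D →
  (∀ N : ℕ, 4 ≤ N → R d γ N ≤ Real.exp (f * N + D * √(N : ℝ))) →
  ∃ (C : ℝ) (m0 : ℕ), ∀ m n : ℕ, m0 ≤ m → m ^ 20 ≤ n →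
    Real.log (Z d γ n) ≤ f * n + C * ((n : ℝ) / m) * (Real.log n + 1)

def S_MAIN : Prop := ∀ (d : ℕ) (γ : ℝ), 0 < γ → ∃ f : ℝ,
  Tendsto (fun n : ℕ => Real.log (Z d γ n) / (n : ℝ)) atTop (𝓝 f) ∧
  Tendsto (fun m : ℕ => Real.log (R d γ (2 * m)) / (2 * m : ℝ)) atTop (𝓝 f)

/-! ## small combinatorial facts -/

def S_WDET : Prop := ∀ (d n : ℕ) (L L' : List (Pt d)), IsWalk n L → IsWalk n L' →
  ed L = ed L' → L = L'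

def S_GAP : Prop := ∀ (d n K R : ℕ) (L : List (Pt d)), IsWalk n L → n + 1 < R * (K + 1) →
  ∃ (b c : ℤ) (X1 X2 : Finset (Sym2 (Pt d))) (e : Pt d), Cls n K R b c X1 X2 e L

def S_CNT : Prop := ∀ (α : Type) (S : Finset α) (r : ℕ), ∃ T : Finset (List α),
  (∀ l, l ∈ T ↔ l.length ≤ r ∧ ∀ x ∈ l, x ∈ S) ∧ T.card ≤ (S.card + 1) ^ r

/-! ## surgery on lists: one repair step -/

def S_INS : Prop := ∀ (d : ℕ) (z : Pt d) (P1 : List (Pt d)) (q : Pt d) (t : ℤ) (H W : ℕ),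
  (z :: P1 ++ [q]).Nodup → z 0 < t → q 0 < t → cnt 0 t (z :: P1 ++ [q]).toFinset ≤ H →
  ∃ P1' : List (Pt d), (z :: P1' ++ [q]).Nodup ∧
    RelL (W * (H + 1)) (z :: P1 ++ [q]) (z :: P1' ++ [q]) ∧
    jn (z :: P1' ++ [q]) = jn (z :: P1 ++ [q]) ∧
    (∀ T, jt T (z :: P1' ++ [q]) ≤ jt T (z :: P1 ++ [q]) + W * jn (z :: P1 ++ [q])) ∧
    (∀ u ∈ z :: P1' ++ [q], t ≤ u 0 → u 0 < t + W → LC (ed (z :: P1' ++ [q])) u) ∧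
    (∀ x : ℤ, t ≤ x → x < t + W → cnt 0 x (z :: P1' ++ [q]).toFinset ≤ H)

def S_RUN : Prop := ∀ (d : ℕ) (Q0 P1 : List (Pt d)) (p : Pt d) (t : ℤ) (k : ℕ),
  (Q0 ++ P1 ++ [p]).Nodup → p 0 ≤ t → t ≤ p 0 + k →
  ∃ (P1' : List (Pt d)) (p' : Pt d), (Q0 ++ P1' ++ [p']).Nodup ∧
    RelL (2 * k) (Q0 ++ P1 ++ [p]) (Q0 ++ P1' ++ [p']) ∧
    (((∃ w ∈ Q0, ds p' w = 1) ∧ jn (Q0 ++ P1' ++ [p']) ≤ jn (Q0 ++ P1 ++ [p]) ∧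
        ∀ T, jt T (Q0 ++ P1' ++ [p']) ≤ jt T (Q0 ++ P1 ++ [p])) ∨
      (jn (Q0 ++ P1' ++ [p']) + 1 ≤ jn (Q0 ++ P1 ++ [p]) ∧
        ∀ (T : ℕ) (z : Pt d), jt T (Q0 ++ P1' ++ [p']) + min (ds p' z) T ≤
          jt T (Q0 ++ P1 ++ [p]) + min (ds p z) T + 2 * (t + 1 - max (z 0) (p 0)).toNat + 1) ∨
      (t ≤ p' 0 ∧ p' 0 ≤ t + 1 ∧ jn (Q0 ++ P1' ++ [p']) ≤ jn (Q0 ++ P1 ++ [p]) ∧
        (∀ T, jt T (Q0 ++ P1' ++ [p']) ≤ jt T (Q0 ++ P1 ++ [p])) ∧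
        (∀ z : Pt d, ds p' z ≤ ds p z + 2 * (t + 1 - max (z 0) (p 0)).toNat) ∧
        (∀ u : Pt d, t < u 0 → u ≠ p' → (u ∈ P1' ↔ u ∈ P1) ∧
          (LC (ed (Q0 ++ P1 ++ [p])) u → LC (ed (Q0 ++ P1' ++ [p'])) u)) ∧
        (t < p' 0 → p' ∈ P1)))

def S_ROW : Prop := ∀ (d : ℕ) (z : Pt d) (P1 : List (Pt d)) (q : Pt d) (k : ℕ),
  (z :: P1 ++ [q]).Nodup → z 0 < q 0 →
  (∀ u ∈ z :: P1 ++ [q], q 0 < u 0 → u 0 ≤ q 0 + k → LC (ed (z :: P1 ++ [q])) u) →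
  ∃ A Q : List (Pt d), (z :: A ++ Q).Nodup ∧ Q.length = k + 1 ∧
    (∀ u : Pt d, u ∈ Q ↔ row u = row q ∧ q 0 ≤ u 0 ∧ u 0 ≤ q 0 + k) ∧
    RelL k (z :: P1 ++ [q]) (z :: A ++ Q) ∧ jn (z :: A ++ Q) ≤ jn (z :: P1 ++ [q]) ∧
    (∀ T, jt T (z :: A ++ Q) ≤ jt T (z :: P1 ++ [q])) ∧
    (∀ u ∈ z :: A, u ∈ z :: P1 ++ [q]) ∧
    (∀ u ∈ z :: A, q 0 < u 0 → u 0 ≤ q 0 + k → LC (ed (z :: A ++ Q)) u)

def S_SRUN : Prop := ∀ (d : ℕ) (Q0 P1 : List (Pt d)) (p : Pt d) (X : ℤ) (k : ℕ),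
  (Q0 ++ P1 ++ [p]).Nodup → p 0 + k ≤ X →
  (∀ u ∈ P1, p 0 < u 0 → u 0 ≤ X → LC (ed (Q0 ++ P1 ++ [p])) u) →
  ∃ (P1' : List (Pt d)) (p' : Pt d), (Q0 ++ P1' ++ [p']).Nodup ∧
    RelL k (Q0 ++ P1 ++ [p]) (Q0 ++ P1' ++ [p']) ∧ row p' = row p ∧ p 0 ≤ p' 0 ∧
    p' 0 ≤ p 0 + k ∧ jn (Q0 ++ P1' ++ [p']) ≤ jn (Q0 ++ P1 ++ [p]) ∧
    (∀ T, jt T (Q0 ++ P1' ++ [p']) ≤ jt T (Q0 ++ P1 ++ [p])) ∧
    ((∃ w ∈ Q0, ds p' w = 1) ∨ p' 0 = p 0 + k) ∧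
    (∀ u : Pt d, row u ≠ row p → (u ∈ P1' ↔ u ∈ P1) ∧
      (LC (ed (Q0 ++ P1 ++ [p])) u → LC (ed (Q0 ++ P1' ++ [p'])) u))

def S_PATH : Prop := ∀ (d : ℕ) (u v : Pt d), row u = u → row v = v → u ≠ v →
  ∃ ys : List (Pt d), (u :: ys).IsChain (fun a b => ds a b = 1) ∧ (u :: ys).Nodup ∧
    ys.getLast? = some v ∧ ys.length = ds u v ∧ ∀ y ∈ ys, row y = y

def S_TRANS : Prop := ∀ (d : ℕ) (ys Q0 P1 : List (Pt d)) (p yq : Pt d) (lo hi mid : ℤ) (h : ℕ),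
  (Q0 ++ P1 ++ [p]).Nodup → (row p :: ys).IsChain (fun a b => ds a b = 1) →
  (row p :: ys).Nodup → ys.getLast? = some yq → (∀ y ∈ ys, row y = y) →
  (∀ u ∈ Q0, row u = yq) → (∀ u : Pt d, row u = yq → lo ≤ u 0 → u 0 ≤ hi → u ∈ Q0) →
  (∀ u ∈ P1, row u ∈ ys → lo ≤ u 0 → u 0 ≤ hi → LC (ed (Q0 ++ P1 ++ [p])) u) →
  lo ≤ mid → mid ≤ hi → (ys.filter (fun y => Function.update y 0 mid ∈ P1)).length ≤ h →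
  lo + h ≤ p 0 → p 0 + h ≤ hi →
  ∃ (P1' : List (Pt d)) (p' : Pt d), (Q0 ++ P1' ++ [p']).Nodup ∧
    RelL (2 * ys.length) (Q0 ++ P1 ++ [p]) (Q0 ++ P1' ++ [p']) ∧ (∃ w ∈ Q0, ds p' w = 1) ∧
    jn (Q0 ++ P1' ++ [p']) ≤ jn (Q0 ++ P1 ++ [p]) ∧
    (∀ T, jt T (Q0 ++ P1' ++ [p']) ≤ jt T (Q0 ++ P1 ++ [p]))

def S_CLOSE : Prop := ∀ (d : ℕ) (Q0 P1 : List (Pt d)) (p w : Pt d),
  (Q0 ++ P1 ++ [p]).Nodup → w ∈ Q0 → ds p w = 1 →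
  ∃ L' : List (Pt d), L'.Nodup ∧
    Rel (Q0.length + 1) (ed (Q0 ++ P1 ++ [p])) (Q0 ++ P1 ++ [p]).toFinset (edC L') L'.toFinset ∧
    jnC L' ≤ jn (Q0 ++ P1 ++ [p]) ∧ ∀ T, jtC T L' ≤ jt T (Q0 ++ P1 ++ [p])

def S_STAGE : Prop := ∀ d : ℕ, ∃ C : ℕ, ∀ (H M : ℕ) (z : Pt d) (P1 : List (Pt d)) (q : Pt d),
  1 ≤ H → (z :: P1 ++ [q]).Nodup → (z :: P1 ++ [q]).length ≤ M → ds q z ≠ 1 →
  ∃ P' : List (Pt d), P'.Nodup ∧ jnC P' + 1 ≤ jnC (z :: P1 ++ [q]) ∧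
    (∀ T, jtC T P' ≤ jtC T (z :: P1 ++ [q]) + C * (M / H + H * jnC (z :: P1 ++ [q]) + H + 1)) ∧
    Rel (C * (ds q z + M / H + H ^ 2 + 1)) (edC (z :: P1 ++ [q])) (z :: P1 ++ [q]).toFinset
      (edC P') P'.toFinset

def S_ITER : Prop := ∀ d : ℕ, ∃ C : ℕ, 1 ≤ C ∧ ∀ (H g M T : ℕ) (L : List (Pt d)),
  1 ≤ H → L.Nodup → jnC L ≤ g →
  jtC T L + C * (g * (M / H + H ^ 2 + g * H + 1)) < 5 * T →
  L.length + C * (jnC L * (T + M / H + H ^ 2 + g * H + 1) + jlC L + 1) ≤ M →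
  ∃ L' : List (Pt d), (L' = [] ∨ Poly L') ∧
    Rel (C * (jnC L * (T + M / H + H ^ 2 + g * H + 1) + jlC L + 1)) (edC L) L.toFinset
      (edC L') L'.toFinset

/-! ## gluing -/

def S_FOLD : Prop := ∀ (d : ℕ) (i : Fin (d + 2)) (t : ℤ) (V V' S S' : Finset (Pt d))
  (G G' : Finset (Sym2 (Pt d))), Sys V G S → Sys V' G' S' → xE i t G = xE i t G' →
  (∀ e ∈ xE i t G, ∃ u : Pt d, u i = t - 1 ∧ e = s(u, refl i t u)) →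
  Sys (VF0 i t V V') (F0 i t G G')
    (S ∪ S'.image (refl i t) ∪ (xE i t G).biUnion (fun e => e.toFinset)) ∧
  Sys (VF1 i t V V') (F1 i t G G')
    (S ∪ S'.image (refl i t) ∪ (xE i t G).biUnion (fun e => e.toFinset)) ∧
  (∀ u : Pt d, u i < t → dg (F0 i t G G') u = dg G u) ∧
  (∀ u : Pt d, t ≤ u i → dg (F0 i t G G') u = dg G' (refl i t u)) ∧
  (∀ u : Pt d, t ≤ u i → dg (F1 i t G G') u = dg G u) ∧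
  (∀ u : Pt d, u i < t → dg (F1 i t G G') u = dg G' (refl i t u)) ∧
  U0 i t (F0 i t G G') (F1 i t G G') = G ∧ U1 i t (F0 i t G G') (F1 i t G G') = G'

def S_FOLDV : Prop := ∀ (d : ℕ) (i : Fin (d + 2)) (t : ℤ) (V V' : Finset (Pt d)),
  A2 V + A2 V' ≤ A2 (VF0 i t V V') + A2 (VF1 i t V V') + 2 * cnt i t V + 2 * cnt i t V' ∧
  (VF0 i t V V').card + (VF1 i t V V').card = V.card + V'.card ∧
  (∀ (j : Fin (d + 2)) (s : ℤ), j ≠ i → cnt j s (VF0 i t V V') ≤ cnt j s V + cnt j s V' ∧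
    cnt j s (VF1 i t V V') ≤ cnt j s V + cnt j s V')

def S_FOLDX : Prop := ∀ (d : ℕ) (i : Fin (d + 2)) (t : ℤ) (G G' : Finset (Sym2 (Pt d))),
  (∀ j : Fin (d + 2), ∀ s : ℤ, j ≠ i →
    (∀ e ∈ xE i t G, ∃ u : Pt d, u i = t - 1 ∧ e = s(u, refl i t u)) →
    xE j s (F0 i t G G') = lE i t (xE j s G) ∪ rf i t (lE i t (xE j s G')) ∧
    xE j s (F1 i t G G') = rE i t (xE j s G) ∪ rf i t (rE i t (xE j s G'))) ∧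
  unitE (F0 i t G G') = F0 i t (unitE G) (unitE G') ∧
  unitE (F1 i t G G') = F1 i t (unitE G) (unitE G') ∧
  unitE (U0 i t G G') = U0 i t (unitE G) (unitE G') ∧
  unitE (U1 i t G G') = U1 i t (unitE G) (unitE G')

def S_CYC : Prop := ∀ (d : ℕ) (V S : Finset (Pt d)) (G : Finset (Sym2 (Pt d))), Sys V G S →
  (∀ u ∈ V, dg G u = 2) →
  ∃ Ls : List (List (Pt d)), (∀ L ∈ Ls, L.Nodup ∧ 3 ≤ L.length) ∧ Ls.Pairwise List.Disjoint ∧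
    VV Ls = V ∧ UU Ls = unitE G ∧ Ls.length ≤ S.card ∧
    ∀ (φ : Pt d → Pt d → ℕ) (hφ : ∀ a b, φ a b = φ b a),
      (Ls.map (fun L => sumP φ (cl L))).sum = ∑ e ∈ G, Sym2.lift ⟨φ, hφ⟩ e

def S_GLUE : Prop := ∀ (d n K R : ℕ) (b c : ℤ) (X1 X2 : Finset (Sym2 (Pt d))) (e : Pt d)
  (w : Fin 4 → List (Pt d)), 1 ≤ n → (∀ τ, Cls n K R b c X1 X2 e (w τ)) →
  ∃ Fs : Fin 4 → List (List (Pt d)),
    (∀ q, ∀ L ∈ Fs q, L.Nodup ∧ 3 ≤ L.length) ∧ (∀ q, (Fs q).Pairwise List.Disjoint) ∧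
    (∀ q, (Fs q).length ≤ 8 * K + 4) ∧ (∀ q, ((Fs q).map jnC).sum ≤ 4) ∧
    (∀ q T, ((Fs q).map (jtC T)).sum ≤ 4 * T) ∧
    (∀ q, ((Fs q).map jlC).sum ≤ 4 * (2 * R + 1)) ∧
    (∀ q, InBox (3 * n + 2 * R + 3) (VV (Fs q))) ∧
    ∑ q, (VV (Fs q)).card = 4 * (n + 1) ∧
    ∑ τ, A2 (w τ).toFinset ≤ ∑ q, A2 (VV (Fs q)) + 100 * K ∧
    ∀ τ, ed (w τ) = unf b c (fun q => UU (Fs q)) τ

def S_CLUST : Prop := ∀ (d : ℕ) (Fs : List (List (Pt d))), (∀ L ∈ Fs, L ≠ [] ∧ L.Nodup) →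
  Fs.Pairwise List.Disjoint →
  ∃ Gs : List (List (Pt d)), (∀ L ∈ Gs, L ≠ [] ∧ L.Nodup) ∧ Gs.Pairwise List.Disjoint ∧
    Gs.length ≤ Fs.length ∧ VV Gs = VV Fs ∧
    A2 (VV Fs) = (Gs.map (fun L => A2 L.toFinset)).sum ∧
    (Gs.map jnC).sum ≤ (Fs.map jnC).sum + Fs.length ∧
    (∀ T, (Gs.map (jtC T)).sum ≤ (Fs.map (jtC T)).sum + 3 * Fs.length) ∧
    (Gs.map jlC).sum ≤ (Fs.map jlC).sum + 3 * Fs.length ∧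
    ∀ B : ℕ, InBox B (VV Fs) → ∃ c : List (Op d), c.length ≤ 4 * Fs.length ∧
      (∀ o ∈ c, o.InB B) ∧ UU Fs = dec c (UU Gs)

/-! ## data of a quadruple of walks of the same class -/

def S_DATA : Prop := ∀ d : ℕ, ∃ C m0 : ℕ, 1 ≤ m0 ∧ ∀ m n : ℕ, m0 ≤ m → m ^ 20 ≤ n →
  ∀ (b c : ℤ) (X1 X2 : Finset (Sym2 (Pt d))) (e : Pt d) (w : Fin 4 → List (Pt d)),
  (∀ τ, Cls n m (n / m + 2) b c X1 X2 e (w τ)) →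
  ∃ (slots : Fin (C * m) → List (Pt d)) (lab : Fin (C * m) → Fin 4) (code : List (ℕ × Op d)),
    (∀ i, slots i = [] ∨ Poly (slots i)) ∧ (∀ i, InBox (C * n) (slots i).toFinset) ∧
    code.length ≤ C * (n / m) ∧ (∀ x ∈ code, x.1 < C * m + 4 ∧ x.2.InB (C * n)) ∧
    ∑ i, (slots i).length ≤ 4 * n + C * (n / m) ∧
    ∑ τ, A2 (w τ).toFinset ≤ ∑ i, A2 (slots i).toFinset + C * (n / m) ∧
    ∀ τ, ed (w τ) = unf b c (sys slots lab code) τ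

/-! ## translations to the frozen statements -/

section tr
open Classical

def S_TR1 : Prop := ∀ (d : ℕ) (β : ℝ) (n : ℕ),
  (∑ w ∈ (Fintype.piFinset
      (fun _ : Fin (n + 1) =>
        Fintype.piFinset (fun _ : Fin (d + 2) => Finset.Icc (-(n : ℤ)) (n : ℤ)))).filter
      (fun w : Fin (n + 1) → Fin (d + 2) → ℤ =>
        w 0 = 0 ∧
        (∀ i j : Fin (n + 1), w i = w j → i = j) ∧
        (∀ i : Fin n, ∑ k : Fin (d + 2), |w i.succ k - w i.castSucc k| = 1)),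
    Real.exp (β * ((((Finset.univ : Finset (Fin (n + 1) × Fin (n + 1))).filter
      (fun p : Fin (n + 1) × Fin (n + 1) =>
        p.1.val + 1 < p.2.val ∧
        ∑ k : Fin (d + 2), |w p.1 k - w p.2 k| = 1)).card : ℕ) : ℝ)))
  = Real.exp (-(β * n)) * Z d (β / 2) n

def S_TR2 : Prop := ∀ (d : ℕ) (β : ℝ) (P : (n : ℕ) → (Fin n → Fin (d + 2) × Bool) → ℕ → (Fin (d + 2) → ℤ)),
  (∀ (n : ℕ) (s : Fin n → Fin (d + 2) × Bool) (t : ℕ),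
    P n s t = ∑ j ∈ Finset.univ.filter (fun j : Fin n => j.val < t),
      (fun i : Fin (d + 2) => if i = (s j).1 then (if (s j).2 then (1 : ℤ) else -1) else 0)) →
  ∀ n : ℕ,
  (∑ s ∈ Finset.univ.filter (fun s : Fin n → Fin (d + 2) × Bool =>
      ∀ a ∈ Finset.range (n + 1), ∀ b ∈ Finset.range (n + 1),
        P n s a = P n s b → a = b),
    Real.exp (β * (((Finset.range (n + 1) ×ˢ Finset.range (n + 1)).filter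
      (fun p : ℕ × ℕ => p.1 + 1 < p.2 ∧
        ∑ i : Fin (d + 2), |P n s p.1 i - P n s p.2 i| = 1)).card : ℝ)))
  = Real.exp (-(β * n)) * Z d (β / 2) n

def S_TR3 : Prop := ∀ (d : ℕ) (β : ℝ) (P : (n : ℕ) → (Fin n → Fin (d + 2) × Bool) → ℕ → (Fin (d + 2) → ℤ)),
  (∀ (n : ℕ) (s : Fin n → Fin (d + 2) × Bool) (t : ℕ),
    P n s t = ∑ j ∈ Finset.univ.filter (fun j : Fin n => j.val < t),
      (fun i : Fin (d + 2) => if i = (s j).1 then (if (s j).2 then (1 : ℤ) else -1) else 0)) →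
  ∀ m : ℕ, 2 ≤ m →
  (∑ s ∈ Finset.univ.filter (fun s : Fin (2 * m) → Fin (d + 2) × Bool =>
      P (2 * m) s (2 * m) = 0 ∧
      ∀ a ∈ Finset.range (2 * m), ∀ b ∈ Finset.range (2 * m),
        P (2 * m) s a = P (2 * m) s b → a = b),
    Real.exp (β * (((Finset.range (2 * m) ×ˢ Finset.range (2 * m)).filter
      (fun p : ℕ × ℕ => p.1 + 1 < p.2 ∧ ¬ (p.1 = 0 ∧ p.2 + 1 = 2 * m) ∧
        ∑ i : Fin (d + 2), |P (2 * m) s p.1 i - P (2 * m) s p.2 i| = 1)).card : ℝ)))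
  = Real.exp (-(β * (2 * m : ℝ))) * R d (β / 2) (2 * m)

end tr

end Pool.Agent.N944.FE
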