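import Mathlib

/-!
Project FE (helper944): the free energy of the interacting self-avoiding walk exists for every
attraction strength and equals that of polygons.  Definitions and statements of the parts.
-/

set_option autoImplicit false

namespace Pool.Agent.N944.FE

open Filter Topology

/-- points of `ℤ^(d+2)` -/
abbrev Pt (d : ℕ) := Fin (d + 2) → ℤ

section defs

variable {d : ℕ}

/-- `ℓ¹` distance -/
def ds (u v : Pt d) : ℕ := ∑ k, (u k - v k).natAbs

/-- the unit vector `e_0` -/
def e0 : Pt d := Pi.single 0 1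

/-- number of ordered pairs of neighbours in `V` -/
def A2 (V : Finset (Pt d)) : ℕ := ((V ×ˢ V).filter (fun p => ds p.1 p.2 = 1)).card

/-- all coordinates of the points of `V` are at most `B` in absolute value -/
def InBox (B : ℕ) (V : Finset (Pt d)) : Prop := ∀ u ∈ V, ∀ i, |u i| ≤ (B : ℤ)

/-- number of points of `V` in the hyperplane `x_i = t` -/
def cnt (i : Fin (d + 2)) (t : ℤ) (V : Finset (Pt d)) : ℕ := (V.filter (fun u => u i = t)).card

/-- the unit edge between `a` and `b`, if they are neighbours -/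
def e1s (a b : Pt d) : Finset (Sym2 (Pt d)) := if ds a b = 1 then {s(a, b)} else ∅

/-- unit edges between consecutive entries of a list -/
def ed : List (Pt d) → Finset (Sym2 (Pt d))
  | [] => ∅
  | [_] => ∅
  | a :: b :: l => e1s a b ∪ ed (b :: l)

/-- a list with its first element repeated at the end (closing it up cyclically) -/
def cl : List (Pt d) → List (Pt d)
  | [] => []
  | a :: l => a :: l ++ [a]

/-- unit edges of the cyclic list `L` -/
def edC (L : List (Pt d)) : Finset (Sym2 (Pt d)) := ed (cl L)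

/-- sum of `φ` over consecutive entries -/
def sumP (φ : Pt d → Pt d → ℕ) : List (Pt d) → ℕ
  | [] => 0
  | [_] => 0
  | a :: b :: l => φ a b + sumP φ (b :: l)

/-- number of jumps (consecutive entries which are not neighbours) -/
def jn (L : List (Pt d)) : ℕ := sumP (fun a b => if ds a b = 1 then 0 else 1) L

/-- total length of the jumps, each counted at most `T` -/
def jt (T : ℕ) (L : List (Pt d)) : ℕ := sumP (fun a b => if ds a b = 1 then 0 else min (ds a b) T) L

/-- total length of the jumps -/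
def jl (L : List (Pt d)) : ℕ := sumP (fun a b => if ds a b = 1 then 0 else ds a b) L

def jnC (L : List (Pt d)) : ℕ := jn (cl L)
def jtC (T : ℕ) (L : List (Pt d)) : ℕ := jt T (cl L)
def jlC (L : List (Pt d)) : ℕ := jl (cl L)

/-- `n`-step self-avoiding walk from the origin, as the list of its `n+1` points -/
def IsWalk (n : ℕ) (L : List (Pt d)) : Prop :=
  L.length = n + 1 ∧ L.head? = some 0 ∧ L.Nodup ∧ L.IsChain (fun a b => ds a b = 1)

/-- self-avoiding polygon, as a list of points in cyclic order (rooted at its first entry) -/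
def Poly (L : List (Pt d)) : Prop :=
  4 ≤ L.length ∧ L.Nodup ∧ (cl L).IsChain (fun a b => ds a b = 1)

/-! ### operations on edge sets (used for encoding) -/

inductive Op (d : ℕ)
  | tog (u v : Pt d)
  | uni (t : ℤ)

/-- collapse: the columns `≥ t` are moved to the left by one -/
def colp (t : ℤ) (u : Pt d) : Pt d := if u 0 < t then u else u - e0

/-- `tog u v` toggles the pair `s(u,v)`, `uni t` removes the column `x_0 = t` (collapse) -/
def Op.app : Op d → Finset (Sym2 (Pt d)) → Finset (Sym2 (Pt d))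
  | .tog u v, E => symmDiff E {s(u, v)}
  | .uni t, E => (E.image (Sym2.map (colp t))).filter (fun e => ¬ e.IsDiag)

def dec (c : List (Op d)) (E : Finset (Sym2 (Pt d))) : Finset (Sym2 (Pt d)) := c.foldr Op.app E

def Op.InB (B : ℕ) : Op d → Prop
  | .tog u v => (∀ i, |u i| ≤ (B : ℤ)) ∧ (∀ i, |v i| ≤ (B : ℤ))
  | .uni t => |t| ≤ (B : ℤ)

/-- `(E, V)` can be changed into `(E', V')` at cost `k`: `E` can be decoded from `E'` with a code of
at most `k` operations, and numbers of neighbour pairs, cardinalities and sizes change by `O(k)`. -/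
structure Rel (k : ℕ) (E : Finset (Sym2 (Pt d))) (V : Finset (Pt d))
    (E' : Finset (Sym2 (Pt d))) (V' : Finset (Pt d)) : Prop where
  code : ∀ B : ℕ, InBox B V →
    ∃ c : List (Op d), c.length ≤ k ∧ (∀ o ∈ c, o.InB (B + k)) ∧ E = dec c E'
  box : ∀ B : ℕ, InBox B V → InBox (B + k) V'
  a2 : A2 V ≤ A2 V' + 4 * (d + 2) * k
  le : V.card ≤ V'.card + k
  ge : V'.card ≤ V.card + k

/-- `Rel` for (non-cyclic) lists -/
def RelL (k : ℕ) (P P' : List (Pt d)) : Prop := Rel k (ed P) P.toFinset (ed P') P'.toFinset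

/-- both horizontal edges at `u` are in `E` -/
def LC (E : Finset (Sym2 (Pt d))) (u : Pt d) : Prop := s(u, u + e0) ∈ E ∧ s(u, u - e0) ∈ E

/-- the row of `u` (a line in direction `e_0`), represented by its point in the column `x_0 = 0` -/
def row (u : Pt d) : Pt d := Function.update u 0 0

/-! ### folding -/

/-- reflection in the hyperplane `x_i = t - 1/2` -/
def refl (i : Fin (d + 2)) (t : ℤ) (u : Pt d) : Pt d := Function.update u i (2 * t - 1 - u i)

open Classical in
noncomputable def lE (i : Fin (d + 2)) (t : ℤ) (E : Finset (Sym2 (Pt d))) : Finset (Sym2 (Pt d)) :=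
  E.filter (fun e => ∀ u ∈ e, u i < t)

open Classical in
noncomputable def rE (i : Fin (d + 2)) (t : ℤ) (E : Finset (Sym2 (Pt d))) : Finset (Sym2 (Pt d)) :=
  E.filter (fun e => ∀ u ∈ e, t ≤ u i)

open Classical in
noncomputable def xE (i : Fin (d + 2)) (t : ℤ) (E : Finset (Sym2 (Pt d))) : Finset (Sym2 (Pt d)) :=
  E.filter (fun e => (∃ u ∈ e, u i < t) ∧ (∃ u ∈ e, t ≤ u i))

def rf (i : Fin (d + 2)) (t : ℤ) (E : Finset (Sym2 (Pt d))) : Finset (Sym2 (Pt d)) :=
  E.image (Sym2.map (refl i t))

noncomputable def F0 (i : Fin (d + 2)) (t : ℤ) (E E' : Finset (Sym2 (Pt d))) :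
    Finset (Sym2 (Pt d)) := lE i t E ∪ xE i t E ∪ rf i t (lE i t E')

noncomputable def F1 (i : Fin (d + 2)) (t : ℤ) (E E' : Finset (Sym2 (Pt d))) :
    Finset (Sym2 (Pt d)) := rE i t E ∪ xE i t E ∪ rf i t (rE i t E')

noncomputable def U0 (i : Fin (d + 2)) (t : ℤ) (F F' : Finset (Sym2 (Pt d))) :
    Finset (Sym2 (Pt d)) := lE i t F ∪ xE i t F ∪ rE i t F'

noncomputable def U1 (i : Fin (d + 2)) (t : ℤ) (F F' : Finset (Sym2 (Pt d))) :
    Finset (Sym2 (Pt d)) := rf i t (rE i t F) ∪ xE i t F ∪ rf i t (lE i t F')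

/-- vertex versions -/
def VF0 (i : Fin (d + 2)) (t : ℤ) (V V' : Finset (Pt d)) : Finset (Pt d) :=
  V.filter (fun u => u i < t) ∪ (V'.filter (fun u => u i < t)).image (refl i t)

def VF1 (i : Fin (d + 2)) (t : ℤ) (V V' : Finset (Pt d)) : Finset (Pt d) :=
  V.filter (fun u => t ≤ u i) ∪ (V'.filter (fun u => t ≤ u i)).image (refl i t)

/-- unfolding four edge sets into four edge sets -/
noncomputable def unf (b c : ℤ) (G : Fin 4 → Finset (Sym2 (Pt d))) :
    Fin 4 → Finset (Sym2 (Pt d)) :=
  ![U0 0 b (U0 1 c (G 0) (G 1)) (U0 1 c (G 2) (G 3)),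
    U1 0 b (U0 1 c (G 0) (G 1)) (U0 1 c (G 2) (G 3)),
    U0 0 b (U1 1 c (G 0) (G 1)) (U1 1 c (G 2) (G 3)),
    U1 0 b (U1 1 c (G 0) (G 1)) (U1 1 c (G 2) (G 3))]

/-- number of pairs in `G` containing `u` -/
def dg (G : Finset (Sym2 (Pt d))) (u : Pt d) : ℕ := (G.filter (fun e => u ∈ e.toFinset)).card

/-- `C` is closed under the relation `G` -/
def Clo (G : Finset (Sym2 (Pt d))) (C : Finset (Pt d)) : Prop :=
  ∀ u ∈ C, ∀ v, s(u, v) ∈ G → v ∈ C

/-- `G` is a set of pairs of distinct points of `V`, and `S` meets every nonempty `G`-closed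
subset of `V` -/
structure Sys (V : Finset (Pt d)) (G : Finset (Sym2 (Pt d))) (S : Finset (Pt d)) : Prop where
  nd : ∀ e ∈ G, ¬ e.IsDiag
  mem : ∀ e ∈ G, ∀ u ∈ e, u ∈ V
  tr : ∀ C ⊆ V, C.Nonempty → Clo G C → ∃ u ∈ C, u ∈ S

/-- unit pairs -/
def unitE (E : Finset (Sym2 (Pt d))) : Finset (Sym2 (Pt d)) :=
  E.filter (fun e => ∃ u ∈ e.toFinset, ∃ v ∈ e.toFinset, ds u v = 1)

/-- a family of cyclic lists: its vertices and its unit edges -/
def UU : List (List (Pt d)) → Finset (Sym2 (Pt d))
  | [] => ∅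
  | L :: Fs => edC L ∪ UU Fs

def VV (Fs : List (List (Pt d))) : Finset (Pt d) := Fs.flatten.toFinset

/-- the class of a walk `L` from `0` to `e` with sparse hyperplanes `x_0 = b`, `x_1 = c` -/
structure Cls (n K R : ℕ) (b c : ℤ) (X1 X2 : Finset (Sym2 (Pt d))) (e : Pt d)
    (L : List (Pt d)) : Prop where
  walk : IsWalk n L
  last : L.getLast? = some e
  b1 : 2 ≤ b
  b2 : b ≤ R + 1
  c1 : e 1 + 2 ≤ c
  c2 : c ≤ e 1 + R + 1
  x1 : xE 0 b (ed L) = X1
  x2 : xE 1 c (ed L) = X2
  k1 : cnt 0 b L.toFinset ≤ K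
  k2 : cnt 1 c L.toFinset ≤ K

/-- the operations of a labelled code with label `i` -/
def codeAt (code : List (ℕ × Op d)) (i : ℕ) : List (Op d) :=
  (code.filter (fun x => x.1 = i)).map Prod.snd

/-- the four edge sets described by polygons `slots`, labels and a code -/
def sys {k : ℕ} (slots : Fin k → List (Pt d)) (lab : Fin k → Fin 4) (code : List (ℕ × Op d))
    (q : Fin 4) : Finset (Sym2 (Pt d)) :=
  dec (codeAt code (k + q.val)) ((Finset.univ.filter (fun i => lab i = q)).biUnion
    (fun i : Fin k => dec (codeAt code i.val) (edC (slots i))))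

/-! ### partition functions -/

theorem nb_finite (u : Pt d) : {v : Pt d | ds u v = 1}.Finite := by
  classical
  refine (Set.Finite.subset (Set.finite_Icc (fun i => u i - 1) (fun i => u i + 1)) ?_)
  intro v hv
  have h : ∀ i, (u i - v i).natAbs ≤ 1 := by
    intro i
    have := Finset.single_le_sum (f := fun k => (u k - v k).natAbs) (fun _ _ => Nat.zero_le _)
      (Finset.mem_univ i)
    have h2 : ds u v = 1 := hv
    unfold ds at h2
    omega
  constructor
  · intro i; have := h i; show u i - 1 ≤ v i; omega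
  · intro i; have := h i; show v i ≤ u i + 1; omega

theorem chain_finite (n : ℕ) : ∀ u : Pt d, {L : List (Pt d) | L.length = n + 1 ∧
    L.head? = some u ∧ L.IsChain (fun a b => ds a b = 1)}.Finite := by
  induction n with
  | zero =>
    intro u
    refine (Set.finite_singleton [u]).subset ?_
    rintro L ⟨h1, h2, -⟩
    match L, h1, h2 with
    | [a], _, h2 => simp at h2; simp [h2]
  | succ n ih =>
    intro u
    refine ((nb_finite u).biUnion (fun v _ => (ih v).image (List.cons u))).subset ?_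
    rintro L ⟨h1, h2, h3⟩
    match L, h1, h2, h3 with
    | a :: b :: l, h1, h2, h3 =>
      simp only [List.head?_cons, Option.some.injEq] at h2
      subst h2
      rw [List.isChain_cons_cons] at h3
      exact Set.mem_biUnion (show b ∈ {v : Pt d | ds a v = 1} from h3.1)
        ⟨b :: l, ⟨by simpa using h1, by simp, h3.2⟩, rfl⟩

theorem walk_finite (n : ℕ) : {L : List (Pt d) | IsWalk n L}.Finite :=
  (chain_finite n 0).subset (fun _ h => ⟨h.1, h.2.1, h.2.2.2⟩)

theorem poly_finite (N : ℕ) :
    {L : List (Pt d) | L.length = N ∧ L.head? = some 0 ∧ Poly L}.Finite := by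
  refine (chain_finite (N - 1) 0).subset ?_
  rintro L ⟨h1, h2, h3, -, h5⟩
  refine ⟨by omega, h2, ?_⟩
  match L, h5 with
  | [], _ => simp
  | a :: l, h5 =>
    exact (List.isChain_append.mp h5).1

/-- `n`-step self-avoiding walks from the origin -/
noncomputable def walkF (d n : ℕ) : Finset (List (Pt d)) := (walk_finite (d := d) n).toFinset

/-- polygons with `N` points rooted at the origin -/
noncomputable def polyF (d N : ℕ) : Finset (List (Pt d)) := (poly_finite (d := d) N).toFinset

theorem mem_walkF {n : ℕ} {L : List (Pt d)} : L ∈ walkF d n ↔ IsWalk n L := by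
  simp [walkF]

theorem mem_polyF {N : ℕ} {L : List (Pt d)} :
    L ∈ polyF d N ↔ L.length = N ∧ L.head? = some 0 ∧ Poly L := by
  simp [polyF]

end defs

/-- walk partition function, weight `exp (γ · #ordered neighbour pairs)` -/
noncomputable def Z (d : ℕ) (γ : ℝ) (n : ℕ) : ℝ :=
  ∑ L ∈ walkF d n, Real.exp (γ * (A2 L.toFinset : ℝ))

/-- polygon partition function -/
noncomputable def R (d : ℕ) (γ : ℝ) (N : ℕ) : ℝ :=
  ∑ L ∈ polyF d N, Real.exp (γ * (A2 L.toFinset : ℝ))

open Classical in
/-- polygons in normal position: head `0`, last `e_1`, all points in `x_0 ≤ 0` -/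
noncomputable def Sn (d : ℕ) (γ : ℝ) (N : ℕ) : ℝ :=
  ∑ L ∈ (polyF d N).filter (fun L => L.getLast? = some (Pi.single 1 1) ∧ ∀ u ∈ L, u 0 ≤ 0),
    Real.exp (γ * (A2 L.toFinset : ℝ))

end Pool.Agent.N944.FE
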